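import Mathlib
set_option linter.unusedSectionVars false

/-!
# Families of `(a+1)`-sets covering a set of size not divisible by `a + 1`
-/

namespace Pool.Agent.J6H12.TD

open Finset

/-- `j (a + 1 - j)` for the residue `j` of `n` modulo `a + 1` -/
def phi (a n : ℕ) : ℕ := (n % (a + 1)) * (a + 1 - n % (a + 1))

theorem phi_add (a n m : ℕ) (hm : m ≤ a + 1) : phi a (n + m) ≤ phi a n + (a + 1 - m) * m := by
  unfold phi
  set q := a + 1 with hq
  have hq0 : 0 < q := by omega
  set s := n % q with hs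
  have hsq : s < q := Nat.mod_lt _ hq0
  have h1 : (n + m) % q = (s + m) % q := by rw [Nat.add_mod, hs, Nat.add_mod (n % q) m q, Nat.mod_mod]
  rw [h1]
  rcases lt_or_ge (s + m) q with h | h
  · rw [Nat.mod_eq_of_lt h]
    obtain ⟨c, hc⟩ : ∃ c, q = s + m + c := ⟨q - (s + m), by omega⟩
    have e1 : q - (s + m) = c := by omega
    have e2 : q - s = m + c := by omega
    have e3 : q - m = s + c := by omega
    rw [e1, e2, e3]
    nlinarith
  · have h2 : (s + m) % q = s + m - q := by
      rw [Nat.mod_eq_sub_mod h, Nat.mod_eq_of_lt (by omega)]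
    rw [h2]
    obtain ⟨c, hc⟩ : ∃ c, s + m = q + c := ⟨s + m - q, by omega⟩
    obtain ⟨d, hd⟩ : ∃ d, q = s + d := ⟨q - s, by omega⟩
    obtain ⟨e, he⟩ : ∃ e, q = m + e := ⟨q - m, by omega⟩
    -- m = d + c, s = e + c, q = e + c + d
    have hm' : m = d + c := by omega
    have hs' : s = e + c := by omega
    have e1 : s + m - q = c := by omega
    have e2 : q - c = e + d := by omega
    have e3 : q - s = d := by omega
    have e4 : q - m = e := by omega
    rw [e1, e2, e3, e4, hm', hs']
    nlinarith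

variable {X : Type*} [Fintype X] [DecidableEq X]

/-- the union of the members containing `z` -/
def star (𝓕 : Finset (Finset X)) (z : X) : Finset X := (𝓕.filter fun F => z ∈ F).biUnion id

theorem mem_star {𝓕 : Finset (Finset X)} {z y : X} :
    y ∈ star 𝓕 z ↔ ∃ F ∈ 𝓕, z ∈ F ∧ y ∈ F := by
  unfold star
  simp only [mem_biUnion, mem_filter, id]
  constructor
  · rintro ⟨F, ⟨h1, h2⟩, h3⟩; exact ⟨F, h1, h2, h3⟩
  · rintro ⟨F, h1, h2, h3⟩; exact ⟨F, ⟨h1, h2⟩, h3⟩

theorem star_mono {𝓕 𝓖 : Finset (Finset X)} (h : 𝓕 ⊆ 𝓖) (z : X) : star 𝓕 z ⊆ star 𝓖 z := by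
  intro y hy
  rw [mem_star] at hy ⊢
  obtain ⟨F, h1, h2⟩ := hy
  exact ⟨F, h h1, h2⟩

theorem star_subset (𝓕 : Finset (Finset X)) (z : X) : star 𝓕 z ⊆ 𝓕.biUnion id := by
  intro y hy
  rw [mem_star] at hy
  obtain ⟨F, h1, -, h2⟩ := hy
  exact mem_biUnion.2 ⟨F, h1, h2⟩

/-- the sum of the sizes of the stars -/
theorem sum_star (a : ℕ) (𝓕 : Finset (Finset X)) (h : ∀ F ∈ 𝓕, F.card = a + 1) :
    (a + 1) * (𝓕.biUnion id).card + phi a (𝓕.biUnion id).card ≤
      ∑ z ∈ 𝓕.biUnion id, (star 𝓕 z).card := by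
  classical
  induction 𝓕 using Finset.induction_on with
  | empty => simp [phi]
  | insert F 𝓕 hF ih =>
    have ih' := ih (fun G hG => h G (mem_insert_of_mem hG))
    set U := 𝓕.biUnion id with hU
    have hU' : (insert F 𝓕).biUnion id = U ∪ (F \ U) := by
      rw [biUnion_insert, id, ← hU]
      ext x; simp only [mem_union, mem_sdiff]; tauto
    have hdis : Disjoint U (F \ U) := disjoint_sdiff
    have hc := h F (mem_insert_self _ _)
    set m := (F \ U).card with hm
    have hm1 : m ≤ a + 1 := by rw [← hc]; exact card_le_card sdiff_subset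
    have hFU : (F ∩ U).card = a + 1 - m := by
      have := card_inter_add_card_sdiff F U
      omega
    rw [hU', card_union_of_disjoint hdis, sum_union hdis, ← hm]
    -- new points
    have h1 : m * (a + 1) ≤ ∑ z ∈ F \ U, (star (insert F 𝓕) z).card := by
      have : ∀ z ∈ F \ U, a + 1 ≤ (star (insert F 𝓕) z).card := by
        intro z hz
        rw [← hc]
        refine card_le_card fun y hy => ?_
        rw [mem_star]
        exact ⟨F, mem_insert_self _ _, (mem_sdiff.1 hz).1, hy⟩
      calc m * (a + 1) = ∑ z ∈ F \ U, (a + 1) := by rw [sum_const, smul_eq_mul]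
        _ ≤ _ := sum_le_sum this
    -- old points
    have h2 : ∑ z ∈ U, (star 𝓕 z).card + (a + 1 - m) * m ≤
        ∑ z ∈ U, (star (insert F 𝓕) z).card := by
      have h3 : ∀ z ∈ U, (star 𝓕 z).card + (if z ∈ F then m else 0) ≤
          (star (insert F 𝓕) z).card := by
        intro z hz
        split_ifs with hzF
        · have hd : Disjoint (star 𝓕 z) (F \ U) :=
            disjoint_of_subset_left (star_subset 𝓕 z) hdis
          rw [hm, ← card_union_of_disjoint hd]
          refine card_le_card (union_subset (star_mono (subset_insert _ _) z) ?_)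
          intro y hy
          rw [mem_star]
          exact ⟨F, mem_insert_self _ _, hzF, (mem_sdiff.1 hy).1⟩
        · rw [add_zero]
          exact card_le_card (star_mono (subset_insert _ _) z)
      have h4 := sum_le_sum h3
      rw [sum_add_distrib] at h4
      have h5 : ∑ z ∈ U, (if z ∈ F then m else 0) = (a + 1 - m) * m := by
        rw [← sum_filter, sum_const, smul_eq_mul, ← hFU]
        congr 2
        ext x; simp only [mem_filter, mem_inter]; tauto
      rw [h5] at h4
      exact h4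
    have h6 := phi_add a U.card m hm1
    have h7 : (a + 1) * (U.card + m) = (a + 1) * U.card + m * (a + 1) := by ring
    rw [h7]
    omega

theorem weight {r a : ℕ} (𝓕 : Finset (Finset X)) (h : ∀ F ∈ 𝓕, F.card = a + 1)
    (hcov : ∀ z, ∃ F ∈ 𝓕, z ∈ F) (hX : Fintype.card X = r + a + 1) :
    (r : ℝ) * phi a r ≤ ∑ z : X, ((((star 𝓕 z)ᶜ).card : ℝ) + phi a r) *
      ((r : ℝ) - (((star 𝓕 z)ᶜ).card : ℝ)) := by
  classical
  have hU : 𝓕.biUnion id = univ := by
    ext x
    simp only [mem_biUnion, id, mem_univ, iff_true]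
    exact hcov x
  have h1 := sum_star a 𝓕 h
  rw [hU, card_univ, hX] at h1
  have hphi : phi a (r + a + 1) = phi a r := by
    unfold phi
    rw [add_assoc, Nat.add_mod_right]
  rw [hphi] at h1
  -- excess
  have hs1 : ∀ z, a + 1 ≤ (star 𝓕 z).card := by
    intro z
    obtain ⟨F, hF, hz⟩ := hcov z
    rw [← h F hF]
    refine card_le_card fun y hy => ?_
    rw [mem_star]
    exact ⟨F, hF, hz, hy⟩
  have hs2 : ∀ z, (star 𝓕 z).card ≤ r + a + 1 := by
    intro z
    rw [← hX, ← card_univ]
    exact card_le_card (subset_univ _)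
  set e : X → ℝ := fun z => ((star 𝓕 z).card : ℝ) - (a + 1) with he
  have he0 : ∀ z, 0 ≤ e z := by
    intro z
    have : ((a + 1 : ℕ) : ℝ) ≤ ((star 𝓕 z).card : ℝ) := by exact_mod_cast hs1 z
    push_cast at this
    simp only [he]; linarith
  have her : ∀ z, e z ≤ r := by
    intro z
    have : ((star 𝓕 z).card : ℝ) ≤ ((r + a + 1 : ℕ) : ℝ) := by exact_mod_cast hs2 z
    push_cast at this
    simp only [he]; linarith
  have hc : ∀ z, (((star 𝓕 z)ᶜ).card : ℝ) = r - e z := by
    intro z
    have : ((star 𝓕 z)ᶜ).card + (star 𝓕 z).card = r + a + 1 := by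
      rw [card_compl_add_card, hX]
    have h2 : ((((star 𝓕 z)ᶜ).card + (star 𝓕 z).card : ℕ) : ℝ) = ((r + a + 1 : ℕ) : ℝ) := by rw [this]
    push_cast at h2
    simp only [he]; linarith
  have hsum : (phi a r : ℝ) ≤ ∑ z : X, e z := by
    have h2 : (((a + 1) * (r + a + 1) + phi a r : ℕ) : ℝ) ≤ ((∑ z : X, (star 𝓕 z).card : ℕ) : ℝ) := by
      exact_mod_cast h1
    push_cast at h2
    simp only [he]
    rw [sum_sub_distrib, sum_const, card_univ, hX, nsmul_eq_mul]
    push_cast
    linarith
  set φ : ℝ := (phi a r : ℝ) with hφ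
  have hφ0 : 0 ≤ φ := by positivity
  have hterm : ∀ z, ((((star 𝓕 z)ᶜ).card : ℝ) + φ) * ((r : ℝ) - (((star 𝓕 z)ᶜ).card : ℝ)) =
      ((r : ℝ) - e z + φ) * e z := by
    intro z; rw [hc z]; ring
  rw [sum_congr rfl fun z _ => hterm z]
  have hnn : ∀ z, 0 ≤ ((r : ℝ) - e z + φ) * e z := by
    intro z
    exact mul_nonneg (by linarith [her z]) (he0 z)
  by_cases hbig : ∃ z, φ < e z
  · obtain ⟨z, hz⟩ := hbig
    have h3 : (r : ℝ) * φ ≤ ((r : ℝ) - e z + φ) * e z := by
      nlinarith [mul_nonneg (by linarith : (0 : ℝ) ≤ e z - φ) (by linarith [her z] : (0 : ℝ) ≤ r - e z)]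
    refine h3.trans ?_
    exact single_le_sum (f := fun z => ((r : ℝ) - e z + φ) * e z) (fun z _ => hnn z) (mem_univ z)
  · push Not at hbig
    calc (r : ℝ) * φ ≤ (r : ℝ) * ∑ z : X, e z := mul_le_mul_of_nonneg_left hsum (by positivity)
      _ = ∑ z : X, (r : ℝ) * e z := by rw [mul_sum]
      _ ≤ _ := by
        refine sum_le_sum fun z _ => ?_
        have := hbig z
        have := he0 z
        nlinarith

end Pool.Agent.J6H12.TD
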