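import Pool.Agent.J6H12.TD.Main

/-!
# The improved bound
-/

set_option linter.unusedSectionVars false
set_option linter.unusedVariables false

namespace Pool.Agent.J6H12.TD

open Finset Pool.Agent.TH440.DC Filter Topology

section dens

variable {V : Type*} [Fintype V] [DecidableEq V] [Nonempty V] (F : Finset (Finset V))

theorem pp_small {r j : ℕ} (h : j < r) : pp F r j = 1 := by
  have : ∀ S : Fin j → V, ci F r S univ = 1 := by
    intro S
    unfold ci
    rw [if_pos]
    intro R hR hr
    have := card_le_card hR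
    rw [hr, card_univ, Fintype.card_fin] at this
    omega
  unfold pp
  rw [av_congr this, av_const]

/-- the union bound -/
theorem union_bound (r j : ℕ) : 1 - (j.choose r : ℝ) * td F r ≤ pp F r j := by
  classical
  have h1 : ∀ S : Fin j → V, 1 - ∑ R ∈ (univ : Finset (Fin j)).powersetCard r, mi F S R ≤
      ci F r S univ := by
    intro S
    by_cases h : Cl F r S univ
    · have : ci F r S univ = 1 := by unfold ci; rw [if_pos h]
      rw [this]
      have : 0 ≤ ∑ R ∈ (univ : Finset (Fin j)).powersetCard r, mi F S R :=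
        sum_nonneg fun R _ => mi_nonneg _ _ _
      linarith
    · have h0 : ci F r S univ = 0 := by unfold ci; rw [if_neg h]
      rw [h0]
      unfold Cl at h
      push Not at h
      obtain ⟨R, -, hR, hM⟩ := h
      have h2 : mi F S R = 1 := by unfold mi; rw [if_pos hM]
      have h3 : mi F S R ≤ ∑ R ∈ (univ : Finset (Fin j)).powersetCard r, mi F S R :=
        single_le_sum (f := fun R => mi F S R) (fun R _ => mi_nonneg _ _ _)
          (mem_powersetCard.2 ⟨subset_univ _, hR⟩)
      linarith
  have h2 := av_mono h1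
  rw [av_sub, av_const, av_finset_sum] at h2
  have h3 : ∀ R ∈ (univ : Finset (Fin j)).powersetCard r,
      av (fun S : Fin j → V => mi F S R) = td F r := by
    intro R hR
    exact av_mi F (mem_powersetCard.1 hR).2
  rw [sum_congr rfl h3, sum_const, card_powersetCard, card_univ, Fintype.card_fin,
    nsmul_eq_mul] at h2
  exact h2

/-- the chain down to the edges -/
theorem chain_up {r j : ℕ} (hr : 2 ≤ r) (hj : r - 1 ≤ j) (hp : 0 < pp F r j) :
    pp F r j - pp F r (j + 1) ≤ (j.choose (r - 1) : ℝ) * td F r * pp F r j := by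
  rcases Nat.lt_or_ge j r with h | h
  · obtain rfl : j = r - 1 := by omega
    have e : r - 1 + 1 = r := by omega
    rw [e, pp_small F (by omega : r - 1 < r), pp_self, Nat.choose_self]
    push_cast
    linarith
  · refine chain F r (x := td F r) hr ?_ (td_nonneg F r) j h hp
    have h1 := deCaen F r (j := r - 1) (by omega)
    have e1 : r - 1 + 1 = r := by omega
    have e2 : r - 1 + 2 = r + 1 := by omega
    rw [e1, e2, pp_small F (by omega : r - 1 < r)] at h1
    have e3 : (((r - 1 : ℕ) : ℝ)) = (r : ℝ) - 1 := by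
      rw [Nat.cast_sub (by omega)]; simp
    rw [e3] at h1
    have h2 := pp_self F r
    set p := pp F r r with hpdef
    have h3 : td F r = 1 - p := by linarith
    rw [h3]
    nlinarith

theorem alg {r a φ τ P : ℝ} (ha : 1 ≤ a) (hr : a * (a + 1) < r) (hφ : 0 ≤ φ) (hP : 0 ≤ P)
    (hB : r - a * τ ≤ r * P) (hA : 0 < P → (a + φ - a * τ) * (r + a + 1) * P ≤ r * φ) :
    1 + φ * (r - a * (a + 1)) / (a * (r + a + 1) * (r + φ - a)) ≤ τ := by
  by_contra hcon
  push Not at hcon
  have hra : 2 * a < r := by nlinarith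
  have hr1 : a + 1 ≤ r := by linarith
  have hd1 : 0 < r + a + 1 := by linarith
  have hd2 : 0 < r + φ - a := by linarith
  have hd : 0 < a * (r + a + 1) * (r + φ - a) := by positivity
  set δ := φ * (r - a * (a + 1)) / (a * (r + a + 1) * (r + φ - a)) with hδ
  have hδ1 : a * δ * ((r + a + 1) * (r + φ - a)) = φ * (r - a * (a + 1)) := by
    rw [hδ]; field_simp
  have hδ0 : 0 ≤ δ := by
    rw [hδ]
    apply div_nonneg _ hd.le
    apply mul_nonneg hφ; linarith
  -- a δ ≤ φ
  have hδ2 : a * δ ≤ φ := by
    by_contra hc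
    push Not at hc
    have h1 : r - a * (a + 1) ≤ (r + a + 1) * (r + φ - a) := by nlinarith
    have h2 : φ * (r - a * (a + 1)) ≤ φ * ((r + a + 1) * (r + φ - a)) :=
      mul_le_mul_of_nonneg_left h1 hφ
    have h3 : φ * ((r + a + 1) * (r + φ - a)) < a * δ * ((r + a + 1) * (r + φ - a)) :=
      mul_lt_mul_of_pos_right hc (by positivity)
    linarith
  have hδ3 : a * δ ≤ 1 := by
    by_contra hc
    push Not at hc
    have h1 : φ * (r - a * (a + 1)) ≤ (r + φ - a) * (r + a + 1) := by
      apply mul_le_mul (by linarith) (by nlinarith) (by linarith) (by linarith)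
    have h3 : 1 * ((r + a + 1) * (r + φ - a)) < a * δ * ((r + a + 1) * (r + φ - a)) :=
      mul_lt_mul_of_pos_right hc (by positivity)
    linarith
  have haτ : a * τ < a + a * δ := by nlinarith
  have hPpos : 0 < P := by
    by_contra hc
    have : P = 0 := le_antisymm (not_lt.1 hc) hP
    rw [this] at hB
    linarith
  have h1 := hA hPpos
  have h2 : 0 < a + φ - a * τ := by linarith
  have h3 : (a + φ - a * τ) * (r + a + 1) * (r - a * τ) ≤ r * (r * φ) := by
    calc (a + φ - a * τ) * (r + a + 1) * (r - a * τ)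
        ≤ (a + φ - a * τ) * (r + a + 1) * (r * P) :=
          mul_le_mul_of_nonneg_left hB (by positivity)
      _ = r * ((a + φ - a * τ) * (r + a + 1) * P) := by ring
      _ ≤ r * (r * φ) := mul_le_mul_of_nonneg_left h1 (by linarith)
  set d := a * τ - a with hdd
  have h4 : (φ - d) * (r + a + 1) * (r - a - d) ≤ r * (r * φ) := by
    have e1 : φ - d = a + φ - a * τ := by rw [hdd]; ring
    have e2 : r - a - d = r - a * τ := by rw [hdd]; ring
    rw [e1, e2]; exact h3
  have h5 : φ * (r - a * (a + 1)) ≤ d * ((r + a + 1) * (r + φ - a)) := by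
    nlinarith [mul_nonneg hd1.le (sq_nonneg d)]
  have h6 : d < a * δ := by rw [hdd]; linarith
  have h7 : d * ((r + a + 1) * (r + φ - a)) < a * δ * ((r + a + 1) * (r + φ - a)) :=
    mul_lt_mul_of_pos_right h6 (by positivity)
  linarith

/-- the bound for the density of the member tuples -/
theorem td_bound {r a : ℕ} (ha : 1 ≤ a) (hr : a * (a + 1) < r) (hF : Covers F r (r + a)) :
    1 + (phi a r : ℝ) * ((r : ℝ) - a * (a + 1)) / (a * ((r : ℝ) + a + 1) * ((r : ℝ) + phi a r - a)) ≤
      ((r + a - 1).choose (r - 1) : ℝ) * td F r := by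
  have hr2 : 3 ≤ r := by nlinarith
  have hk := pp_eq_zero F (by omega : 2 ≤ r) (by omega : r ≤ r + a) hF
  have ha' : (1 : ℝ) ≤ a := by exact_mod_cast ha
  have hr' : (a : ℝ) * (a + 1) < r := by exact_mod_cast hr
  set C : ℝ := ((r + a - 1).choose (r - 1) : ℝ) with hC
  set t := td F r with ht
  have ht0 : 0 ≤ t := td_nonneg F r
  -- identities for binomial coefficients
  have c1 : ((r + a - 1).choose r : ℝ) * r = C * a := by
    have h := Nat.choose_succ_right_eq (r + a - 1) (r - 1)
    rw [show r - 1 + 1 = r by omega, show r + a - 1 - (r - 1) = a by omega] at h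
    have h' : (((r + a - 1).choose r * r : ℕ) : ℝ) = (((r + a - 1).choose (r - 1) * a : ℕ) : ℝ) := by
      rw [h]
    push_cast at h'
    exact h'
  have c2 : ((r + a - 2).choose (r - 1) : ℝ) * ((r : ℝ) + a - 1) = C * a := by
    have h := Nat.choose_mul_succ_eq (r + a - 2) (r - 1)
    rw [show r + a - 2 + 1 = r + a - 1 by omega, show r + a - 1 - (r - 1) = a by omega] at h
    have h' : (((r + a - 2).choose (r - 1) * (r + a - 1) : ℕ) : ℝ) =
        (((r + a - 1).choose (r - 1) * a : ℕ) : ℝ) := by rw [h]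
    rw [Nat.cast_mul, Nat.cast_mul, Nat.cast_sub (by omega)] at h'
    push_cast at h'
    exact h'
  refine alg ha' hr' (by positivity) (pp_nonneg F r (r + a - 1)) ?_ ?_
  · have h := union_bound F r (r + a - 1)
    have hrp : (0 : ℝ) < r := by positivity
    have h1 := mul_le_mul_of_nonneg_left h hrp.le
    have e : (r : ℝ) * (1 - ((r + a - 1).choose r : ℝ) * t) = r - a * (C * t) := by
      have : (r : ℝ) * (((r + a - 1).choose r : ℝ) * t) = (((r + a - 1).choose r : ℝ) * r) * t := by ring
      rw [mul_sub, this, c1]; ring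
    rw [← ht, e] at h1
    exact h1
  · intro hP
    have h1 := last_step F ha (by omega) hk
    have hQP : pp F r (r + a - 1) ≤ pp F r (r + a - 2) := pp_anti F r (by omega)
    have hQ : 0 < pp F r (r + a - 2) := lt_of_lt_of_le hP hQP
    have h2 := chain_up F (r := r) (j := r + a - 2) (by omega) (by omega) hQ
    rw [show r + a - 2 + 1 = r + a - 1 by omega, ← ht] at h2
    set P := pp F r (r + a - 1) with hPd
    set Q := pp F r (r + a - 2) with hQd
    set φ : ℝ := (phi a r : ℝ) with hφ
    have hK : (0 : ℝ) < (r : ℝ) + a - 1 := by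
      have : (3 : ℝ) ≤ r := by exact_mod_cast hr2
      linarith
    have hK1 : (0 : ℝ) < (r : ℝ) + a + 1 := by positivity
    -- multiply the chain by (k-1) P
    have h3 : ((r : ℝ) + a - 1) * P * Q - C * a * t * P * Q ≤ ((r : ℝ) + a - 1) * P ^ 2 := by
      have h4 := mul_le_mul_of_nonneg_left h2 (mul_nonneg hK.le hP.le)
      have e : ((r : ℝ) + a - 1) * P * (((r + a - 2).choose (r - 1) : ℝ) * t * Q) =
          (((r + a - 2).choose (r - 1) : ℝ) * ((r : ℝ) + a - 1)) * t * P * Q := by ring
      rw [e, c2] at h4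
      nlinarith
    have h5 : Q * (((r : ℝ) + a - 1) * P - C * a * t * P) ≤
        Q * (((r : ℝ) - φ - 1) * P + (r : ℝ) * φ / ((r : ℝ) + a + 1)) := by
      nlinarith
    have h6 := le_of_mul_le_mul_left h5 hQ
    have h7 : ((a : ℝ) + φ - a * (C * t)) * P ≤ (r : ℝ) * φ / ((r : ℝ) + a + 1) := by
      nlinarith
    rw [le_div_iff₀ hK1] at h7
    calc ((a : ℝ) + φ - a * (C * t)) * ((r : ℝ) + a + 1) * P =
        ((a : ℝ) + φ - a * (C * t)) * P * ((r : ℝ) + a + 1) := by ring
      _ ≤ _ := h7

end dens

open Pool.Agent.H120R2.Clique in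
/-- the bound for the Turán density -/
theorem density {r a : ℕ} (ha : 1 ≤ a) (hr : a * (a + 1) < r) :
    1 + (phi a r : ℝ) * ((r : ℝ) - a * (a + 1)) / (a * ((r : ℝ) + a + 1) * ((r : ℝ) + phi a r - a)) ≤
      ((r + a - 1).choose a : ℝ) * (1 - turanDensity r (r + a)) := by
  have hr2 : 3 ≤ r := by nlinarith
  set B := 1 + (phi a r : ℝ) * ((r : ℝ) - a * (a + 1)) /
    (a * ((r : ℝ) + a + 1) * ((r : ℝ) + phi a r - a)) with hB
  have hsym : (r + a - 1).choose (r - 1) = (r + a - 1).choose a := by
    rw [← Nat.choose_symm (show a ≤ r + a - 1 by omega)]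
    congr 1; omega
  have hC : (0 : ℝ) < ((r + a - 1).choose a : ℝ) := by
    exact_mod_cast Nat.choose_pos (show a ≤ r + a - 1 by omega)
  have h := density_of (r := r) (k := r + a) hr2 (by omega)
    (c := B / ((r + a - 1).choose a : ℝ)) (by
      intro n F hF
      have h1 := td_bound F ha hr hF
      rw [hsym] at h1
      rw [div_le_iff₀ hC, mul_comm]
      exact h1)
  have h2 : B / ((r + a - 1).choose a : ℝ) ≤ 1 - turanDensity r (r + a) := by linarith
  rw [div_le_iff₀ hC] at h2
  linarith

end Pool.Agent.J6H12.TD
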