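import Pool.Agent.TH440.DC.Main
import Pool.Agent.J6H12.TD.Comb

/-!
# Divisibility and de Caen's bound
-/

set_option linter.unusedSectionVars false
set_option linter.unusedVariables false

namespace Pool.Agent.J6H12.TD

open Finset Pool.Agent.TH440.DC

variable {V : Type*} [Fintype V] [DecidableEq V] [Nonempty V] (F : Finset (Finset V))

/-- every tuple of length `k` is a nonclique -/
theorem ci_zero {r k : ℕ} (h : pp F r k = 0) (S : Fin k → V) : ci F r S univ = 0 := by
  have h1 : ∀ S : Fin k → V, 0 ≤ ci F r S univ := fun S => ci_nonneg _ _ _ _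
  unfold pp av at h
  have hc : (0 : ℝ) < (Fintype.card (Fin k → V) : ℝ) := card_pos'
  have h2 : ∑ S : Fin k → V, ci F r S univ = 0 := by
    rw [div_eq_zero_iff] at h
    rcases h with h | h
    · exact h
    · exact absurd h hc.ne'
  exact (Finset.sum_eq_zero_iff_of_nonneg fun S _ => h1 S).1 h2 S (mem_univ S)

/-- the complements of the members of a tuple -/
noncomputable def cofam (r : ℕ) {ι : Type*} [Fintype ι] [DecidableEq ι] (S : ι → V) :
    Finset (Finset ι) := by
  classical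
  exact ((univ : Finset (Finset ι)).filter fun R => R.card = r ∧ Mem F S R).image compl

theorem mem_cofam {r : ℕ} {ι : Type*} [Fintype ι] [DecidableEq ι] {S : ι → V} {C : Finset ι} :
    C ∈ cofam F r S ↔ (Cᶜ).card = r ∧ Mem F S Cᶜ := by
  classical
  unfold cofam
  simp only [mem_image, mem_filter, mem_univ, true_and]
  constructor
  · rintro ⟨R, h, rfl⟩
    rwa [compl_compl]
  · intro h
    exact ⟨Cᶜ, h, compl_compl _⟩

/-- the cliques obtained by deleting `z` and a further coordinate -/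
theorem cc_star {r k : ℕ} (hk : pp F r k = 0) (S : Fin (k + 1) → V) (z : Fin (k + 1)) :
    cc F r (S ∘ z.succAboveEmb) = (((star (cofam F r S) z)ᶜ).card : ℝ) := by
  classical
  unfold cc
  have h1 : ∀ i : Fin k, ci F r (S ∘ z.succAboveEmb) {i}ᶜ =
      if z.succAboveEmb i ∈ (star (cofam F r S) z)ᶜ then (1 : ℝ) else 0 := by
    intro i
    rw [ci_comp]
    unfold ci
    have : Cl F r S (({i}ᶜ : Finset (Fin k)).map z.succAboveEmb) ↔
        z.succAboveEmb i ∈ (star (cofam F r S) z)ᶜ := by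
      have hset : ∀ R : Finset (Fin (k + 1)), R ⊆ (({i}ᶜ : Finset (Fin k)).map z.succAboveEmb) ↔
          z ∉ R ∧ z.succAboveEmb i ∉ R := by
        intro R
        constructor
        · intro h
          refine ⟨fun hz => ?_, fun hi => ?_⟩
          · obtain ⟨y, -, hy⟩ := mem_map.1 (h hz)
            exact Fin.succAbove_ne z y hy
          · obtain ⟨y, hy, hyi⟩ := mem_map.1 (h hi)
            rw [mem_compl, mem_singleton] at hy
            exact hy (z.succAboveEmb.injective hyi)
        · rintro ⟨h1, h2⟩ y hy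
          have hyz : y ≠ z := by rintro rfl; exact h1 hy
          obtain ⟨w, rfl⟩ := Fin.exists_succAbove_eq hyz
          refine mem_map.2 ⟨w, ?_, rfl⟩
          rw [mem_compl, mem_singleton]
          rintro rfl
          exact h2 hy
      unfold Cl
      rw [mem_compl, mem_star]
      constructor
      · rintro h ⟨C, hC, hz, hi⟩
        rw [mem_cofam] at hC
        refine h Cᶜ ?_ hC.1 hC.2
        rw [hset]
        exact ⟨by simpa using hz, by simpa using hi⟩
      · intro h R hR hr hM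
        apply h
        rw [hset] at hR
        refine ⟨Rᶜ, ?_, by simpa using hR.1, by simpa using hR.2⟩
        rw [mem_cofam, compl_compl]
        exact ⟨hr, hM⟩
    by_cases hc : Cl F r S (({i}ᶜ : Finset (Fin k)).map z.succAboveEmb)
    · rw [if_pos hc, if_pos (this.1 hc)]
    · rw [if_neg hc, if_neg (fun h => hc (this.2 h))]
  rw [sum_congr rfl fun i _ => h1 i, sum_ite, sum_const_zero, add_zero, sum_const, nsmul_eq_mul,
    mul_one]
  congr 1
  -- the star contains z
  have hz : z ∈ star (cofam F r S) z := by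
    have h2 := ci_zero F hk (S ∘ z.succAboveEmb)
    have h3 : ¬ Cl F r (S ∘ z.succAboveEmb) univ := by
      intro hh
      unfold ci at h2
      rw [if_pos hh] at h2
      norm_num at h2
    unfold Cl at h3
    push Not at h3
    obtain ⟨R, -, hR, hM⟩ := h3
    rw [mem_star]
    refine ⟨(R.map z.succAboveEmb)ᶜ, ?_, ?_, ?_⟩
    · rw [mem_cofam, compl_compl, card_map]
      exact ⟨hR, (Mem_comp F _ S R).1 hM⟩
    all_goals
      rw [mem_compl]
      intro hh
      obtain ⟨y, -, hy⟩ := mem_map.1 hh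
      exact Fin.succAbove_ne z y hy
  rw [← card_map z.succAboveEmb]
  congr 1
  ext y
  constructor
  · intro hy
    obtain ⟨w, hw, rfl⟩ := mem_map.1 hy
    exact (mem_filter.1 hw).2
  · intro hy
    have hyz : y ≠ z := by rintro rfl; exact (mem_compl.1 hy) hz
    obtain ⟨w, rfl⟩ := Fin.exists_succAbove_eq hyz
    exact mem_map.2 ⟨w, mem_filter.2 ⟨mem_univ _, hy⟩, rfl⟩

theorem cofam_cover {r k : ℕ} (hk : pp F r k = 0) (S : Fin (k + 1) → V) (z : Fin (k + 1)) :
    ∃ C ∈ cofam F r S, z ∈ C := by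
  classical
  have h2 := ci_zero F hk (S ∘ z.succAboveEmb)
  have h3 : ¬ Cl F r (S ∘ z.succAboveEmb) univ := by
    intro hh
    unfold ci at h2
    rw [if_pos hh] at h2
    norm_num at h2
  unfold Cl at h3
  push Not at h3
  obtain ⟨R, -, hR, hM⟩ := h3
  refine ⟨(R.map z.succAboveEmb)ᶜ, ?_, ?_⟩
  · rw [mem_cofam, compl_compl, card_map]
    exact ⟨hR, (Mem_comp F _ S R).1 hM⟩
  · rw [mem_compl]
    intro hh
    obtain ⟨y, -, hy⟩ := mem_map.1 hh
    exact Fin.succAbove_ne z y hy

/-- the pointwise inequality on `k + 1` vertices, `k = r + a` -/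
theorem pointwise {r a : ℕ} (hk : pp F r (r + a) = 0) (S : Fin (r + a + 1) → V) :
    (r : ℝ) * phi a r ≤ ∑ z : Fin (r + a + 1), (cc F r (S ∘ z.succAboveEmb) + phi a r) *
      ((r : ℝ) - cc F r (S ∘ z.succAboveEmb)) := by
  have h := weight (r := r) (a := a) (cofam F r S) ?_ (cofam_cover F hk S) (by simp)
  · refine h.trans (le_of_eq ?_)
    refine sum_congr rfl fun z _ => ?_
    rw [cc_star F hk S z]
  · intro C hC
    rw [mem_cofam] at hC
    have h1 := card_compl_add_card C
    rw [hC.1, Fintype.card_fin] at h1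
    omega

/-- the improved last step of de Caen's recursion -/
theorem last_step {r a : ℕ} (ha : 1 ≤ a) (hr : 2 ≤ r) (hk : pp F r (r + a) = 0) :
    ((r : ℝ) + a - 1) * pp F r (r + a - 1) ^ 2 ≤ pp F r (r + a - 2) *
      (((r : ℝ) - phi a r - 1) * pp F r (r + a - 1) + (r : ℝ) * phi a r / ((r : ℝ) + a + 1)) := by
  obtain ⟨j, hj⟩ : ∃ j, r + a = j + 2 := ⟨r + a - 2, by omega⟩
  have hjr : (r : ℝ) + a = (j : ℝ) + 2 := by
    have : ((r + a : ℕ) : ℝ) = ((j + 2 : ℕ) : ℝ) := by rw [hj]
    push_cast at this; exact this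
  have e1 : r + a - 1 = j + 1 := by omega
  have e2 : r + a - 2 = j := by omega
  rw [e1, e2]
  set φ : ℝ := (phi a r : ℝ) with hφ
  have hφ0 : 0 ≤ φ := by positivity
  have h1 : (r : ℝ) * φ ≤ av fun S : Fin (r + a + 1) → V => ∑ z : Fin (r + a + 1),
      (cc F r (S ∘ z.succAboveEmb) + φ) * ((r : ℝ) - cc F r (S ∘ z.succAboveEmb)) :=
    const_le_av fun S => pointwise F hk S
  rw [av_finset_sum] at h1
  have h2 : ∀ z ∈ (univ : Finset (Fin (r + a + 1))), av (fun S : Fin (r + a + 1) → V =>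
      (cc F r (S ∘ z.succAboveEmb) + φ) * ((r : ℝ) - cc F r (S ∘ z.succAboveEmb))) =
      av (fun S : Fin (r + a) → V => (cc F r S + φ) * ((r : ℝ) - cc F r S)) := by
    intro z _
    exact av_comp z.succAboveEmb (fun S : Fin (r + a) → V => (cc F r S + φ) * ((r : ℝ) - cc F r S))
  rw [sum_congr rfl h2, sum_const, card_univ, Fintype.card_fin, nsmul_eq_mul] at h1
  have h3 : av (fun S : Fin (r + a) → V => (cc F r S + φ) * ((r : ℝ) - cc F r S)) =
      φ * r + ((r : ℝ) - φ - 1) * (((j : ℝ) + 2) * pp F r (j + 1)) -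
        ((j : ℝ) + 2) * ((j : ℝ) + 1) * qq F r j := by
    have a1 : ∀ S : Fin (r + a) → V, (cc F r S + φ) * ((r : ℝ) - cc F r S) =
        (φ * r + ((r : ℝ) - φ - 1) * cc F r S) - cc F r S * (cc F r S - 1) := by
      intro S; ring
    rw [av_congr a1, av_sub, av_add, av_const, av_mul_left,
      av_cc F r (j := j + 1) (by rw [Fintype.card_fin, hj]),
      av_cc_sq F r (j := j) (by rw [Fintype.card_fin, hj])]
    push_cast
    ring
  rw [h3] at h1
  have hK : (0 : ℝ) < (j : ℝ) + 3 := by positivity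
  push_cast at h1
  rw [show (r : ℝ) + a + 1 = (j : ℝ) + 3 by linarith] at h1 ⊢
  rw [show (r : ℝ) + a - 1 = (j : ℝ) + 1 by linarith]
  have h4 : ((j : ℝ) + 1) * qq F r j ≤
      ((r : ℝ) - φ - 1) * pp F r (j + 1) + (r : ℝ) * φ / ((j : ℝ) + 3) := by
    have hj2 : (0 : ℝ) < (j : ℝ) + 2 := by positivity
    have h5 : ((j : ℝ) + 2) * (((j : ℝ) + 1) * qq F r j) ≤ ((j : ℝ) + 2) *
        (((r : ℝ) - φ - 1) * pp F r (j + 1) + (r : ℝ) * φ / ((j : ℝ) + 3)) := by
      have h6 : (r : ℝ) * φ / ((j : ℝ) + 3) ≤ φ * r + ((r : ℝ) - φ - 1) *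
          (((j : ℝ) + 2) * pp F r (j + 1)) - ((j : ℝ) + 2) * ((j : ℝ) + 1) * qq F r j := by
        rw [div_le_iff₀ hK]
        linarith
      have h7 : φ * r - (r : ℝ) * φ / ((j : ℝ) + 3) = ((j : ℝ) + 2) * ((r : ℝ) * φ / ((j : ℝ) + 3)) := by
        field_simp
        ring
      nlinarith
    exact le_of_mul_le_mul_left h5 hj2
  have h5 := pp_sq_le F r j
  have h6 := pp_nonneg F r j
  calc ((j : ℝ) + 1) * pp F r (j + 1) ^ 2 ≤ ((j : ℝ) + 1) * (pp F r j * qq F r j) := by
        apply mul_le_mul_of_nonneg_left h5; positivity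
    _ = pp F r j * (((j : ℝ) + 1) * qq F r j) := by ring
    _ ≤ _ := mul_le_mul_of_nonneg_left h4 h6

end Pool.Agent.J6H12.TD
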